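import Mathlib

/-!
# Per-panel and global proportional representation with unequal panel sizes

Q1 of MP_d2b090_co holds with the constant `c = 2`: for all panel sizes there is an individually fair
distribution over sequences of panels such that every panel and the union of the panels satisfy 2-PRF
(for every sequence of the support).

Proof.  For a panel size `k` the population (every individual with mass one) is divided greedily into
`k` fractional clusters of mass `n/k`, always choosing a smallest ball which still contains mass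
`n/k`.  Every `S` of mass at least `q n/k` meets `q` clusters lying within distance `2 r(S)` of the
common point.  This is done for each `k_i` and for `K = ∑ k_i`.  The matrix with rows
(clusters of all panels) ⊔ V and columns (clusters of the union) ⊔ V, with entries
`w(C,v) k_i/n`, `W(D,v) K/n`, and `1 - K/n` at `(v,v)`, is doubly stochastic.  By Birkhoff's theorem it
is a convex combination of permutation matrices, and every permutation of the combination gives a
sequence of panels.
-/

namespace Pool.Agent.Results.MP_d2b090_co.UnequalPanels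

open Finset

variable {V : Type*} [Fintype V] {X : Type*} [MetricSpace X]

open Classical in
/-- `P` satisfies `β`-PRF for the population `V` (individual `v` being located at `loc v`) and panel
size `k`: for every `q ≥ 1` and every `S ⊆ V` with `|S| ≥ q n / k`, at least `q` members of `P` are at
distance at most `β r(S)` from some element of `S`, where `r(S)` is the diameter of `S`. -/
def PRF (loc : V → X) (β : ℝ) (k : ℕ) (P : Finset V) : Prop :=
  ∀ q : ℕ, 1 ≤ q → ∀ S : Finset V, (q : ℝ) * (Fintype.card V : ℝ) / k ≤ (S.card : ℝ) →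
    q ≤ (P.filter (fun u => ∃ v ∈ S,
      dist (loc u) (loc v) ≤ β * Metric.diam (loc '' (S : Set V)))).card

/-! ### Fractional greedy clusters -/

open Classical in
/-- The greedy clusters. -/
lemma clusters (loc : V → X) (m : ℝ) (hm : 0 < m) : ∀ (t : ℕ) (u : V → ℝ), (∀ v, 0 ≤ u v) →
    ∑ v, u v = t * m →
    ∃ w : Fin t → V → ℝ, (∀ j v, 0 ≤ w j v) ∧ (∀ v, ∑ j, w j v = u v) ∧ (∀ j, ∑ v, w j v = m) ∧
      ∀ (S : Finset V) (q : ℕ), q * m ≤ ∑ v ∈ S, u v →
        q ≤ (univ.filter (fun j : Fin t => ∃ s ∈ S, 0 < w j s ∧ ∀ v, 0 < w j v →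
          dist (loc v) (loc s) ≤ 2 * Metric.diam (loc '' (S : Set V)))).card := by
  intro t
  induction t with
  | zero =>
    intro u hu hsum
    have hu0 : ∀ v, u v = 0 := by
      have h0 : ∑ v, u v = 0 := by simpa using hsum
      intro v
      exact (Finset.sum_eq_zero_iff_of_nonneg (fun v _ => hu v)).1 h0 v (mem_univ v)
    refine ⟨fun j => j.elim0, fun j => j.elim0, fun v => by simp [hu0], fun j => j.elim0, ?_⟩
    intro S q hq
    have : ∑ v ∈ S, u v = 0 := Finset.sum_eq_zero fun v _ => hu0 v
    rw [this] at hq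
    have hq0 : (q : ℝ) ≤ 0 := by
      by_contra hcon
      push Not at hcon
      have := mul_pos hcon hm
      linarith
    have : q = 0 := by exact_mod_cast le_antisymm hq0 (by positivity)
    omega
  | succ t ih =>
    intro u hu hsum
    -- candidates
    set T : Finset (V × V × V) := univ.filter (fun p : V × V × V =>
      m ≤ ∑ v ∈ univ.filter (fun v => dist (loc v) (loc p.1) ≤ dist (loc p.2.1) (loc p.2.2)), u v)
      with hT
    have htot : m ≤ ∑ v, u v := by
      rw [hsum]
      push_cast
      have : 0 ≤ (t : ℝ) * m := by positivity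
      linarith
    have key : ∀ S : Finset V, m ≤ ∑ v ∈ S, u v → ∃ p ∈ T, (p.2.1 ∈ S ∧ p.2.2 ∈ S) := by
      intro S hS
      have hne : S.Nonempty := by
        rw [Finset.nonempty_iff_ne_empty]
        rintro rfl
        simp at hS
        linarith
      obtain ⟨p, hp, hpmax⟩ := Finset.exists_max_image (S ×ˢ S)
        (fun p => dist (loc p.1) (loc p.2)) (hne.product hne)
      rw [mem_product] at hp
      obtain ⟨s, hs⟩ := hne
      refine ⟨(s, p.1, p.2), ?_, hp.1, hp.2⟩
      rw [hT, mem_filter]
      refine ⟨mem_univ _, le_trans hS ?_⟩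
      apply Finset.sum_le_sum_of_subset_of_nonneg
      · intro v hv
        rw [mem_filter]
        exact ⟨mem_univ _, hpmax (v, s) (by rw [mem_product]; exact ⟨hv, hs⟩)⟩
      · intro v _ _
        exact hu v
    have hTne : T.Nonempty := by
      obtain ⟨p, hp, -⟩ := key univ htot
      exact ⟨p, hp⟩
    obtain ⟨⟨x, y, z⟩, hxyz, hmin⟩ := Finset.exists_min_image T
      (fun p => dist (loc p.2.1) (loc p.2.2)) hTne
    set ρ := dist (loc y) (loc z) with hρ
    set Bl := univ.filter (fun v => dist (loc v) (loc x) ≤ ρ) with hBl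
    have hB : m ≤ ∑ v ∈ Bl, u v := by
      rw [hT, mem_filter] at hxyz
      exact hxyz.2
    set M := ∑ v ∈ Bl, u v with hM
    have hMpos : 0 < M := lt_of_lt_of_le hm hB
    set w₀ : V → ℝ := fun v => if v ∈ Bl then m / M * u v else 0 with hw₀
    have hw₀nn : ∀ v, 0 ≤ w₀ v := by
      intro v
      rw [hw₀]
      dsimp only
      split_ifs
      · exact mul_nonneg (by positivity) (hu v)
      · exact le_rfl
    have hw₀le : ∀ v, w₀ v ≤ u v := by
      intro v
      rw [hw₀]
      dsimp only
      split_ifs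
      · have h1 : m / M ≤ 1 := (div_le_one hMpos).2 hB
        calc m / M * u v ≤ 1 * u v := mul_le_mul_of_nonneg_right h1 (hu v)
          _ = u v := one_mul _
      · exact hu v
    have hw₀sum : ∑ v, w₀ v = m := by
      rw [hw₀]
      dsimp only
      rw [← Finset.sum_filter, Finset.filter_mem_eq_inter, Finset.univ_inter, ← Finset.mul_sum,
        ← hM]
      field_simp
    have hw₀supp : ∀ v, 0 < w₀ v → dist (loc v) (loc x) ≤ ρ := by
      intro v hv
      rw [hw₀] at hv
      dsimp only at hv
      split_ifs at hv with h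
      · rw [hBl, mem_filter] at h
        exact h.2
      · exact absurd hv (lt_irrefl _)
    obtain ⟨w, hw1, hw2, hw3, hw4⟩ := ih (fun v => u v - w₀ v) (fun v => sub_nonneg.2 (hw₀le v))
      (by rw [Finset.sum_sub_distrib, hw₀sum, hsum]; push_cast; ring)
    refine ⟨Fin.cons w₀ w, ?_, ?_, ?_, ?_⟩
    · intro j v
      refine Fin.cases ?_ ?_ j
      · exact hw₀nn v
      · intro j; exact hw1 j v
    · intro v
      rw [Fin.sum_univ_succ]
      simp only [Fin.cons_zero, Fin.cons_succ]
      rw [hw2]
      ring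
    · intro j
      refine Fin.cases ?_ ?_ j
      · exact hw₀sum
      · intro j; exact hw3 j
    · intro S q hq
      rcases Nat.eq_zero_or_pos q with rfl | hqpos
      · exact Nat.zero_le _
      have hq1 : (1 : ℝ) ≤ q := by exact_mod_cast hqpos
      have hmS : m ≤ ∑ v ∈ S, u v := by
        refine le_trans ?_ hq
        calc m = 1 * m := (one_mul m).symm
          _ ≤ q * m := mul_le_mul_of_nonneg_right hq1 hm.le
      have hρS : ρ ≤ Metric.diam (loc '' (S : Set V)) := by
        obtain ⟨p, hpT, hp1, hp2⟩ := key S hmS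
        refine le_trans (hmin p hpT) ?_
        apply Metric.dist_le_diam_of_mem
        · exact (S.finite_toSet.image loc).isBounded
        · exact ⟨_, hp1, rfl⟩
        · exact ⟨_, hp2, rfl⟩
      rw [Fin.card_filter_univ_succ]
      simp only [Fin.cons_zero, Fin.cons_succ]
      by_cases hS0 : ∃ s ∈ S, 0 < w₀ s
      · obtain ⟨s, hs, hs0⟩ := hS0
        rw [if_pos ⟨s, hs, hs0, fun v hv => by
          have h1 := hw₀supp v hv
          have h2 := hw₀supp s hs0
          have h3 := dist_triangle_right (loc v) (loc s) (loc x)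
          linarith⟩]
        have h4 := hw4 S (q - 1) (by
          rw [Finset.sum_sub_distrib, Nat.cast_sub hqpos]
          have h5 : ∑ v ∈ S, w₀ v ≤ m := by
            rw [← hw₀sum]
            exact Finset.sum_le_sum_of_subset_of_nonneg (subset_univ S) fun v _ _ => hw₀nn v
          push_cast
          linarith)
        omega
      · push Not at hS0
        have h4 := hw4 S q (by
          have h5 : ∑ v ∈ S, (u v - w₀ v) = ∑ v ∈ S, u v := by
            apply Finset.sum_congr rfl
            intro v hv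
            have : w₀ v = 0 := le_antisymm (hS0 v hv) (hw₀nn v)
            rw [this, sub_zero]
          rw [h5]
          exact hq)
        split_ifs
        · omega
        · exact h4

/-! ### Rounding -/

section Rounding

variable {ℓ : ℕ} (k : Fin ℓ → ℕ)

/-- The index type of the doubly stochastic matrix: `K` clusters and the individuals. -/
abbrev J (V : Type*) {ℓ : ℕ} (k : Fin ℓ → ℕ) : Type _ := Fin (∑ i, k i) ⊕ V

/-- The panel to which a cluster belongs. -/
def pan (a : Fin (∑ i, k i)) : (i : Fin ℓ) × Fin (k i) := finSigmaFinEquiv.symm a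

open Classical in
/-- The matrix. -/
noncomputable def mat (w : ∀ i : Fin ℓ, Fin (k i) → V → ℝ) (W : Fin (∑ i, k i) → V → ℝ) :
    Matrix (J V k) (J V k) ℝ := fun r c =>
  match r, c with
  | Sum.inl _, Sum.inl _ => 0
  | Sum.inl a, Sum.inr v => w (pan k a).1 (pan k a).2 v * (k (pan k a).1 / Fintype.card V)
  | Sum.inr v, Sum.inl b => W b v * ((∑ i, k i : ℕ) / Fintype.card V)
  | Sum.inr v, Sum.inr v' => if v = v' then 1 - ((∑ i, k i : ℕ) : ℝ) / Fintype.card V else 0

open Classical in
lemma mat_mem (w : ∀ i : Fin ℓ, Fin (k i) → V → ℝ) (W : Fin (∑ i, k i) → V → ℝ)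
    (hn : 0 < Fintype.card V) (hk : ∀ i, 1 ≤ k i) (hK : 0 < ∑ i, k i)
    (hKn : ∑ i, k i ≤ Fintype.card V)
    (hw0 : ∀ i j v, 0 ≤ w i j v) (hw1 : ∀ i v, ∑ j, w i j v = 1)
    (hw2 : ∀ i j, ∑ v, w i j v = (Fintype.card V : ℝ) / k i)
    (hW0 : ∀ b v, 0 ≤ W b v) (hW1 : ∀ v, ∑ b, W b v = 1)
    (hW2 : ∀ b, ∑ v, W b v = (Fintype.card V : ℝ) / (∑ i, k i : ℕ)) :
    mat k w W ∈ doublyStochastic ℝ (J V k) := by
  have hn' : (0 : ℝ) < Fintype.card V := by exact_mod_cast hn
  have hK' : (0 : ℝ) < ((∑ i, k i : ℕ) : ℝ) := by exact_mod_cast hK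
  have hk' : ∀ i, (0 : ℝ) < k i := fun i => by exact_mod_cast hk i
  have hKn' : ((∑ i, k i : ℕ) : ℝ) / Fintype.card V ≤ 1 := by
    rw [div_le_one hn']; exact_mod_cast hKn
  rw [mem_doublyStochastic_iff_sum]
  refine ⟨?_, ?_, ?_⟩
  · rintro (a | v) (b | v')
    · exact le_rfl
    · exact mul_nonneg (hw0 _ _ _) (by positivity)
    · exact mul_nonneg (hW0 _ _) (by positivity)
    · show 0 ≤ if v = v' then 1 - ((∑ i, k i : ℕ) : ℝ) / Fintype.card V else 0
      split_ifs
      · linarith
      · exact le_rfl
  · rintro (a | v)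
    · rw [Fintype.sum_sum_type]
      show ∑ _b : Fin (∑ i, k i), (0 : ℝ) +
        ∑ v, w (pan k a).1 (pan k a).2 v * (k (pan k a).1 / Fintype.card V) = 1
      rw [← Finset.sum_mul, hw2]
      have := hk' (pan k a).1
      simp only [sum_const_zero, zero_add]
      field_simp
    · rw [Fintype.sum_sum_type]
      show ∑ b : Fin (∑ i, k i), W b v * ((∑ i, k i : ℕ) / Fintype.card V) +
        ∑ v', (if v = v' then 1 - ((∑ i, k i : ℕ) : ℝ) / Fintype.card V else 0) = 1
      rw [← Finset.sum_mul, hW1, Finset.sum_ite_eq]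
      simp
  · rintro (b | v)
    · rw [Fintype.sum_sum_type]
      show ∑ _a : Fin (∑ i, k i), (0 : ℝ) + ∑ v, W b v * ((∑ i, k i : ℕ) / Fintype.card V) = 1
      rw [← Finset.sum_mul, hW2]
      simp only [sum_const_zero, zero_add]
      field_simp
    · rw [Fintype.sum_sum_type]
      show ∑ a : Fin (∑ i, k i), w (pan k a).1 (pan k a).2 v * (k (pan k a).1 / Fintype.card V) +
        ∑ v', (if v' = v then 1 - ((∑ i, k i : ℕ) : ℝ) / Fintype.card V else 0) = 1
      rw [Finset.sum_ite_eq']
      have h1 : ∑ a : Fin (∑ i, k i), w (pan k a).1 (pan k a).2 v *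
          (k (pan k a).1 / Fintype.card V) =
          ∑ p : (i : Fin ℓ) × Fin (k i), w p.1 p.2 v * ((k p.1 : ℝ) / Fintype.card V) :=
        Equiv.sum_comp (finSigmaFinEquiv (n := k)).symm
          (fun p : (i : Fin ℓ) × Fin (k i) => w p.1 p.2 v * ((k p.1 : ℝ) / Fintype.card V))
      rw [h1, Fintype.sum_sigma]
      have h2 : ∀ i : Fin ℓ, ∑ j, w i j v * ((k i : ℝ) / Fintype.card V) =
          (k i : ℝ) / Fintype.card V := by
        intro i
        rw [← Finset.sum_mul, hw1, one_mul]
      simp only [h2, mem_univ, if_true]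
      rw [← Finset.sum_div]
      push_cast
      ring

open Classical in
/-- The sequence of panels defined by a permutation. -/
noncomputable def panels (σ : Equiv.Perm (J V k)) : Fin ℓ → Finset V := fun i =>
  univ.filter (fun v => ∃ j : Fin (k i), σ (Sum.inl (finSigmaFinEquiv ⟨i, j⟩)) = Sum.inr v)

lemma pan_apply (i : Fin ℓ) (j : Fin (k i)) : pan k (finSigmaFinEquiv ⟨i, j⟩) = ⟨i, j⟩ := by
  unfold pan
  rw [Equiv.symm_apply_apply]

lemma mem_panels (σ : Equiv.Perm (J V k)) (i : Fin ℓ) (v : V) :
    v ∈ panels k σ i ↔ ∃ j : Fin (k i), σ (Sum.inl (finSigmaFinEquiv ⟨i, j⟩)) = Sum.inr v := by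
  simp [panels]

lemma mem_union_iff (σ : Equiv.Perm (J V k)) (v : V) :
    (∃ i, v ∈ panels k σ i) ↔ ∃ a : Fin (∑ i, k i), σ (Sum.inl a) = Sum.inr v := by
  constructor
  · rintro ⟨i, hi⟩
    rw [mem_panels] at hi
    obtain ⟨j, hj⟩ := hi
    exact ⟨_, hj⟩
  · rintro ⟨a, ha⟩
    refine ⟨(pan k a).1, ?_⟩
    rw [mem_panels]
    refine ⟨(pan k a).2, ?_⟩
    unfold pan
    rw [Sigma.eta, Equiv.apply_symm_apply]
    exact ha

end Rounding

open Classical in
/-- The theorem with explicit weights on permutations. -/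
lemma main (loc : V → X) {ℓ : ℕ} (hℓ : 1 ≤ ℓ) (k : Fin ℓ → ℕ) (hk : ∀ i, 1 ≤ k i)
    (hKn : ∑ i, k i ≤ Fintype.card V) :
    ∃ lam : Equiv.Perm (J V k) → ℝ, (∀ σ, 0 ≤ lam σ) ∧ ∑ σ, lam σ = 1 ∧
      (∀ i v, ∑ σ with v ∈ panels k σ i, lam σ = (k i : ℝ) / Fintype.card V) ∧
      (∀ v, ∑ σ with ∃ i, v ∈ panels k σ i, lam σ =
        ((∑ i, k i : ℕ) : ℝ) / Fintype.card V) ∧
      ∀ σ, 0 < lam σ → (∀ i, (panels k σ i).card = k i ∧ PRF loc 2 (k i) (panels k σ i)) ∧
        PRF loc 2 (∑ i, k i) (univ.biUnion (panels k σ)) := by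
  have hK : 0 < ∑ i, k i := by
    have i₀ : Fin ℓ := ⟨0, hℓ⟩
    exact lt_of_lt_of_le (hk i₀) (Finset.single_le_sum (f := k) (fun i _ => Nat.zero_le _)
      (mem_univ i₀))
  have hn : 0 < Fintype.card V := lt_of_lt_of_le hK hKn
  have hn' : (0 : ℝ) < Fintype.card V := by exact_mod_cast hn
  have hK' : (0 : ℝ) < ((∑ i, k i : ℕ) : ℝ) := by exact_mod_cast hK
  have hk' : ∀ i, (0 : ℝ) < k i := fun i => by exact_mod_cast hk i
  have hcl : ∀ t : ℕ, 0 < t → ∃ w : Fin t → V → ℝ, (∀ j v, 0 ≤ w j v) ∧ (∀ v, ∑ j, w j v = 1) ∧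
      (∀ j, ∑ v, w j v = (Fintype.card V : ℝ) / t) ∧
      ∀ (S : Finset V) (q : ℕ), (q : ℝ) * (Fintype.card V : ℝ) / t ≤ (S.card : ℝ) →
        q ≤ (univ.filter (fun j : Fin t => ∃ s ∈ S, 0 < w j s ∧ ∀ v, 0 < w j v →
          dist (loc v) (loc s) ≤ 2 * Metric.diam (loc '' (S : Set V)))).card := by
    intro t ht
    have ht' : (0 : ℝ) < t := by exact_mod_cast ht
    obtain ⟨w, h1, h2, h3, h4⟩ := clusters loc ((Fintype.card V : ℝ) / t) (by positivity) t
      (fun _ => 1) (fun _ => zero_le_one) (by
        simp only [sum_const, card_univ, nsmul_eq_mul, mul_one]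
        field_simp)
    refine ⟨w, h1, h2, h3, ?_⟩
    intro S q hq
    apply h4 S q
    simp only [sum_const, nsmul_eq_mul, mul_one]
    calc (q : ℝ) * ((Fintype.card V : ℝ) / t) = (q : ℝ) * (Fintype.card V : ℝ) / t := by ring
      _ ≤ _ := hq
  choose w hw0 hw1 hw2 hw3 using fun i => hcl (k i) (hk i)
  obtain ⟨W, hW0, hW1, hW2, hW3⟩ := hcl (∑ i, k i) hK
  have hmem := mat_mem k w W hn hk hK hKn hw0 hw1 hw2 hW0 hW1 hW2
  obtain ⟨lam, hl0, hl1, hl2⟩ := exists_eq_sum_perm_of_mem_doublyStochastic hmem
  have hentry : ∀ r c, ∑ σ with σ r = c, lam σ = mat k w W r c := by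
    intro r c
    rw [← hl2, Matrix.sum_apply, Finset.sum_filter]
    apply Finset.sum_congr rfl
    intro σ _
    rw [Matrix.smul_apply, Equiv.Perm.permMatrix, PEquiv.toMatrix_apply, Equiv.toPEquiv_apply]
    simp only [Option.mem_def, Option.some.injEq, smul_eq_mul, mul_ite, mul_one, mul_zero]
  have hpos : ∀ σ, 0 < lam σ → ∀ r, 0 < mat k w W r (σ r) := by
    intro σ hσ r
    rw [← hentry]
    refine lt_of_lt_of_le hσ ?_
    exact Finset.single_le_sum (f := lam) (fun τ _ => hl0 τ) (by
      rw [mem_filter]; exact ⟨mem_univ _, rfl⟩)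
  refine ⟨lam, hl0, hl1, ?_, ?_, ?_⟩
  · intro i v
    have h1 : (univ.filter (fun σ : Equiv.Perm (J V k) => v ∈ panels k σ i)) =
        univ.biUnion (fun j : Fin (k i) => univ.filter (fun σ : Equiv.Perm (J V k) =>
          σ (Sum.inl (finSigmaFinEquiv ⟨i, j⟩)) = Sum.inr v)) := by
      ext σ
      rw [mem_filter, mem_biUnion]
      simp only [mem_univ, true_and, mem_filter]
      exact mem_panels k σ i v
    rw [h1, Finset.sum_biUnion]
    · have h2 : ∀ j : Fin (k i), ∑ σ with σ (Sum.inl (finSigmaFinEquiv ⟨i, j⟩)) = Sum.inr v, lam σ =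
          w i j v * ((k i : ℝ) / Fintype.card V) := by
        intro j
        rw [hentry]
        show w (pan k (finSigmaFinEquiv ⟨i, j⟩)).1 (pan k (finSigmaFinEquiv ⟨i, j⟩)).2 v *
          (k (pan k (finSigmaFinEquiv ⟨i, j⟩)).1 / Fintype.card V) = _
        rw [pan_apply]
      simp only [h2]
      rw [← Finset.sum_mul, hw1, one_mul]
    · intro j _ j' _ hjj'
      rw [Function.onFun, Finset.disjoint_left]
      intro σ hσ hσ'
      rw [mem_filter] at hσ hσ'
      have h3 := σ.injective (hσ.2.trans hσ'.2.symm)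
      have h4 := Sum.inl.inj h3
      have h5 := finSigmaFinEquiv.injective h4
      apply hjj'
      simpa using h5
  · intro v
    have h1 : ∀ σ : Equiv.Perm (J V k), 0 < lam σ →
        ((∃ i, v ∈ panels k σ i) ↔ ¬ σ (Sum.inr v) = Sum.inr v) := by
      intro σ hσ
      rw [mem_union_iff]
      constructor
      · rintro ⟨a, ha⟩ h
        have := σ.injective (ha.trans h.symm)
        simp at this
      · intro h
        rcases h2 : σ.symm (Sum.inr v) with a | v'
        · exact ⟨a, by rw [← h2, Equiv.apply_symm_apply]⟩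
        · exfalso
          have h3 : σ (Sum.inr v') = Sum.inr v := by rw [← h2, Equiv.apply_symm_apply]
          have h4 := hpos σ hσ (Sum.inr v')
          rw [h3] at h4
          have h5 : v' = v := by
            by_contra hne
            have : mat k w W (Sum.inr v') (Sum.inr v) = 0 := by
              show (if v' = v then _ else (0 : ℝ)) = 0
              rw [if_neg hne]
            rw [this] at h4
            exact lt_irrefl _ h4
          subst h5
          exact h h3
    have h2 : ∑ σ with ∃ i, v ∈ panels k σ i, lam σ =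
        ∑ σ with ¬ σ (Sum.inr v) = Sum.inr v, lam σ := by
      rw [Finset.sum_filter, Finset.sum_filter]
      apply Finset.sum_congr rfl
      intro σ _
      rcases (hl0 σ).eq_or_lt with h0 | h0
      · rw [← h0]; simp
      · have := h1 σ h0
        simp only [this]
    have h3 := Finset.sum_filter_add_sum_filter_not (s := (univ : Finset (Equiv.Perm (J V k))))
      (p := fun σ => σ (Sum.inr v) = Sum.inr v) (f := lam)
    rw [hl1, hentry] at h3
    have h4 : mat k w W (Sum.inr v) (Sum.inr v) =
        1 - ((∑ i, k i : ℕ) : ℝ) / Fintype.card V := by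
      show (if v = v then _ else (0 : ℝ)) = _
      rw [if_pos rfl]
    rw [h4] at h3
    rw [h2]
    linarith
  · intro σ hσ
    have hinl : ∀ a : Fin (∑ i, k i), ∃ v, σ (Sum.inl a) = Sum.inr v := by
      intro a
      rcases h : σ (Sum.inl a) with b | v
      · exfalso
        have h1 := hpos σ hσ (Sum.inl a)
        rw [h] at h1
        exact lt_irrefl (0 : ℝ) h1
      · exact ⟨v, rfl⟩
    choose f hf using hinl
    have hfinj : Function.Injective f := by
      intro a b hab
      have := σ.injective ((hf a).trans ((congrArg Sum.inr hab).trans (hf b).symm))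
      exact Sum.inl.inj this
    have hfw : ∀ i j, 0 < w i j (f (finSigmaFinEquiv ⟨i, j⟩)) := by
      intro i j
      have h1 := hpos σ hσ (Sum.inl (finSigmaFinEquiv ⟨i, j⟩))
      rw [hf] at h1
      have h2 : mat k w W (Sum.inl (finSigmaFinEquiv ⟨i, j⟩)) (Sum.inr (f (finSigmaFinEquiv ⟨i, j⟩))) =
          w i j (f (finSigmaFinEquiv ⟨i, j⟩)) * ((k i : ℝ) / Fintype.card V) := by
        show w (pan k (finSigmaFinEquiv ⟨i, j⟩)).1 (pan k (finSigmaFinEquiv ⟨i, j⟩)).2 _ *
          (k (pan k (finSigmaFinEquiv ⟨i, j⟩)).1 / Fintype.card V) = _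
        rw [pan_apply]
      rw [h2] at h1
      exact pos_of_mul_pos_left h1 (by positivity)
    have hpanel : ∀ i, panels k σ i = univ.image (fun j : Fin (k i) => f (finSigmaFinEquiv ⟨i, j⟩)) := by
      intro i
      ext v
      rw [mem_panels, mem_image]
      constructor
      · rintro ⟨j, hj⟩
        rw [hf] at hj
        exact ⟨j, mem_univ _, Sum.inr.inj hj⟩
      · rintro ⟨j, -, rfl⟩
        exact ⟨j, hf _⟩
    have hinj : ∀ i, Function.Injective (fun j : Fin (k i) => f (finSigmaFinEquiv ⟨i, j⟩)) := by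
      intro i j j' hjj'
      have h1 := finSigmaFinEquiv.injective (hfinj hjj')
      simpa using h1
    refine ⟨fun i => ⟨?_, ?_⟩, ?_⟩
    · rw [hpanel, card_image_of_injective _ (hinj i), card_univ, Fintype.card_fin]
    · intro q hq S hS
      refine le_trans (hw3 i S q hS) ?_
      apply card_le_card_of_injOn (fun j => f (finSigmaFinEquiv ⟨i, j⟩))
      · intro j hj
        rw [mem_coe, mem_filter] at hj
        obtain ⟨-, s, hs, hs0, hsv⟩ := hj
        rw [mem_coe, mem_filter]
        refine ⟨?_, s, hs, hsv _ (hfw i j)⟩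
        rw [hpanel, mem_image]
        exact ⟨j, mem_univ _, rfl⟩
      · intro j _ j' _ h
        exact hinj i h
    · intro q hq S hS
      refine le_trans (hW3 S q hS) ?_
      -- the representative of a cluster of the union
      have hrep : ∀ b : Fin (∑ i, k i), ∃ v, σ (Sum.inr v) = Sum.inl b := by
        intro b
        rcases h : σ.symm (Sum.inl b) with a | v
        · exfalso
          have h1 : σ (Sum.inl a) = Sum.inl b := by rw [← h, Equiv.apply_symm_apply]
          rw [hf] at h1
          simp at h1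
        · exact ⟨v, by rw [← h, Equiv.apply_symm_apply]⟩
      choose g hg using hrep
      have hgW : ∀ b, 0 < W b (g b) := by
        intro b
        have h1 := hpos σ hσ (Sum.inr (g b))
        rw [hg] at h1
        have h2 : mat k w W (Sum.inr (g b)) (Sum.inl b) =
          W b (g b) * (((∑ i, k i : ℕ) : ℝ) / Fintype.card V) := rfl
        rw [h2] at h1
        exact pos_of_mul_pos_left h1 (by positivity)
      apply card_le_card_of_injOn g
      · intro b hb
        rw [mem_coe, mem_filter] at hb
        obtain ⟨-, s, hs, hs0, hsv⟩ := hb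
        rw [mem_coe, mem_filter]
        refine ⟨?_, s, hs, hsv _ (hgW b)⟩
        rw [mem_biUnion]
        have h1 : ∃ i, g b ∈ panels k σ i := by
          rw [mem_union_iff]
          rcases h2 : σ.symm (Sum.inr (g b)) with a | v'
          · exact ⟨a, by rw [← h2, Equiv.apply_symm_apply]⟩
          · exfalso
            have h3 : σ (Sum.inr v') = Sum.inr (g b) := by rw [← h2, Equiv.apply_symm_apply]
            have h4 := hpos σ hσ (Sum.inr v')
            rw [h3] at h4
            have h5 : v' = g b := by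
              by_contra hne
              have : mat k w W (Sum.inr v') (Sum.inr (g b)) = 0 := by
                show (if v' = g b then _ else (0 : ℝ)) = 0
                rw [if_neg hne]
              rw [this] at h4
              exact lt_irrefl _ h4
            subst h5
            rw [hg] at h3
            simp at h3
        obtain ⟨i, hi⟩ := h1
        exact ⟨i, mem_univ _, hi⟩
      · intro b _ b' _ h
        have h1 := (hg b).symm.trans ((congrArg (fun v => σ (Sum.inr v)) h).trans (hg b'))
        exact Sum.inl.inj h1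

open Classical in
/-- **Theorem** (Q1 of MP_d2b090_co, with `c = 2`).  Let `V` be a finite population located in a metric
space, `ℓ ≥ 1`, and let `k_1, …, k_ℓ` be positive integers with sum at most `n = |V|`.  There is a
probability distribution `A` over sequences `(P_1, …, P_ℓ)` of subsets of `V` such that every `v ∈ V`
lies in `P_i` with probability `k_i/n` and in the union with probability `(∑ k_i)/n`, and such that
every sequence in the support of `A` satisfies: `|P_i| = k_i`, each `P_i` is 2-PRF for `V` and panel size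
`k_i`, and the union is 2-PRF for `V` and panel size `∑ k_i`. -/
theorem result {V : Type*} [Fintype V] {X : Type*} [MetricSpace X] (loc : V → X) (ℓ : ℕ)
    (hℓ : 1 ≤ ℓ) (k : Fin ℓ → ℕ) (hk : ∀ i, 1 ≤ k i) (hKn : ∑ i, k i ≤ Fintype.card V) :
    ∃ A : (Fin ℓ → Finset V) → ℝ, (∀ P, 0 ≤ A P) ∧ ∑ P, A P = 1 ∧
      (∀ v, ∑ P with ∃ i, v ∈ P i, A P = (∑ i, (k i : ℝ)) / Fintype.card V) ∧
      (∀ i v, ∑ P with v ∈ P i, A P = (k i : ℝ) / Fintype.card V) ∧
      ∀ P, A P ≠ 0 → (∀ i, (P i).card = k i ∧ PRF loc 2 (k i) (P i)) ∧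
        PRF loc 2 (∑ i, k i) (univ.biUnion P) := by
  obtain ⟨lam, h0, h1, h2, h3, h4⟩ := main loc hℓ k hk hKn
  have hpush : ∀ cond : (Fin ℓ → Finset V) → Prop,
      ∑ P with cond P, ∑ σ with panels k σ = P, lam σ = ∑ σ with cond (panels k σ), lam σ := by
    intro cond
    rw [Finset.sum_filter, Finset.sum_filter]
    have : ∀ P : Fin ℓ → Finset V, (if cond P then ∑ σ with panels k σ = P, lam σ else 0) =
        ∑ σ with panels k σ = P, (if cond (panels k σ) then lam σ else 0) := by
      intro P
      split_ifs with hP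
      · apply Finset.sum_congr rfl
        intro σ hσ
        rw [mem_filter] at hσ
        rw [if_pos (by rw [hσ.2]; exact hP)]
      · symm
        apply Finset.sum_eq_zero
        intro σ hσ
        rw [mem_filter] at hσ
        rw [if_neg (by rw [hσ.2]; exact hP)]
    rw [Finset.sum_congr rfl (fun P _ => this P)]
    exact Finset.sum_fiberwise univ (fun σ => panels k σ) (fun σ => if cond (panels k σ) then lam σ else 0)
  refine ⟨fun P => ∑ σ with panels k σ = P, lam σ, ?_, ?_, ?_, ?_, ?_⟩
  · intro P
    exact Finset.sum_nonneg fun σ _ => h0 σ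
  · rw [Finset.sum_fiberwise univ (fun σ => panels k σ) lam, h1]
  · intro v
    have e := hpush (fun P => ∃ i, v ∈ P i)
    have e3 := h3 v
    push_cast at e3
    rw [← e3]
    convert e using 2 <;> (ext; simp)
  · intro i v
    have e := hpush (fun P => v ∈ P i)
    rw [← h2 i v]
    convert e using 2 <;> (ext; simp)
  · intro P hP
    obtain ⟨σ, hσ, hσ0⟩ := Finset.exists_ne_zero_of_sum_ne_zero hP
    rw [mem_filter] at hσ
    rw [← hσ.2]
    exact h4 σ (lt_of_le_of_ne (h0 σ) (Ne.symm hσ0))

end Pool.Agent.Results.MP_d2b090_co.UnequalPanels
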